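import Pool.Agent.helper84.HF.SpecH

set_option autoImplicit false

open Finset

namespace Pool.Agent.HF

theorem COL_gen {α : Type} [d : DecidableEq ℕ] (X : Finset α) (f : α → ℕ) (c : ℝ)
    (hX : X.Nonempty) (hc : 0 < c)
    (h : ∑ i ∈ X.image f, ((X.filter (fun x => f x = i)).card : ℝ) ^ 2 ≤ c * (X.card : ℝ) ^ 2) :
    -Real.log c ≤ ∑ i ∈ X.image f, Real.negMulLog (((X.filter (fun x => f x = i)).card : ℝ) / X.card) := by
  have hcard : (0 : ℝ) < X.card := by exact_mod_cast hX.card_pos
  have hsum : ∑ i ∈ X.image f, (((X.filter (fun x => f x = i)).card : ℝ) / X.card) = 1 := by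
    rw [← Finset.sum_div, div_eq_one_iff_eq hcard.ne']
    exact_mod_cast (Finset.card_eq_sum_card_image f X).symm
  have hsq : ∑ i ∈ X.image f, (((X.filter (fun x => f x = i)).card : ℝ) / X.card) ^ 2 ≤ c := by
    simp_rw [div_pow]
    rw [← Finset.sum_div, div_le_iff₀ (by positivity)]
    exact h
  have key : ∀ i ∈ X.image f,
      (((X.filter (fun x => f x = i)).card : ℝ) / X.card) * (1 - Real.log c) -
        (((X.filter (fun x => f x = i)).card : ℝ) / X.card) ^ 2 / c ≤
      Real.negMulLog (((X.filter (fun x => f x = i)).card : ℝ) / X.card) := by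
    intro i hi
    obtain ⟨x, hx, hxi⟩ := Finset.mem_image.1 hi
    have hpos : (0 : ℝ) < ((X.filter (fun x => f x = i)).card : ℝ) / X.card := by
      apply div_pos _ hcard
      have : (X.filter (fun x => f x = i)).Nonempty := ⟨x, Finset.mem_filter.2 ⟨hx, hxi⟩⟩
      exact_mod_cast this.card_pos
    set q := ((X.filter (fun x => f x = i)).card : ℝ) / X.card with hq
    have h1 : Real.log (q / c) ≤ q / c - 1 := Real.log_le_sub_one_of_pos (div_pos hpos hc)
    rw [Real.log_div hpos.ne' hc.ne'] at h1
    have h2 := mul_le_mul_of_nonneg_left h1 hpos.le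
    unfold Real.negMulLog
    have h3 : q * (q / c - 1) = q ^ 2 / c - q := by ring
    rw [h3] at h2
    linarith [h2, mul_sub q (Real.log q) (Real.log c), mul_sub q 1 (Real.log c)]
  have htot := Finset.sum_le_sum key
  rw [Finset.sum_sub_distrib, ← Finset.sum_mul, hsum, one_mul, ← Finset.sum_div] at htot
  have h5 : (∑ i ∈ X.image f, (((X.filter (fun x => f x = i)).card : ℝ) / X.card) ^ 2) / c ≤ 1 := by
    rw [div_le_one hc]
    exact hsq
  linarith

theorem COL_card {α : Type} [d : DecidableEq ℕ] (X : Finset α) (f : α → ℕ) :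
    ∑ i ∈ X.image f, ((X.filter (fun x => f x = i)).card : ℝ) ^ 2 =
      (((X ×ˢ X).filter (fun z => f z.1 = f z.2)).card : ℝ) := by
  have h1 : ((X ×ˢ X).filter (fun z => f z.1 = f z.2)).card =
      ∑ x ∈ X, (X.filter (fun y => f y = f x)).card := by
    rw [Finset.card_filter, Finset.sum_product]
    apply Finset.sum_congr rfl
    intro x _
    rw [Finset.card_filter]
    apply Finset.sum_congr rfl
    intro y _
    simp only [eq_comm]
  rw [h1]
  have h2 := Finset.sum_comp (s := X) (fun i : ℕ => (X.filter (fun y => f y = i)).card) f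
  rw [h2]
  push_cast
  apply Finset.sum_congr rfl
  intro i _
  rw [smul_eq_mul]
  push_cast
  ring

theorem COL_proof : COL_stmt := by
  intro α X f c hX hc h
  unfold H
  apply @COL_gen α (fun a b => Classical.propDecidable (a = b)) X f c hX hc
  rw [@COL_card α (fun a b => Classical.propDecidable (a = b)) X f]
  refine le_trans (le_of_eq ?_) h
  norm_cast
  apply congrArg Finset.card
  ext z
  simp only [Finset.mem_filter]

end Pool.Agent.HF
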